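import Pool.Agent.T9h16.QI.Spec
import Pool.Agent.T9h22.QE.AllE
import Pool.Agent.T9h75.QC.All

/-! (A1) Circuits with tests, the pointwise form -/

set_option autoImplicit false

namespace Pool.Agent.T9h22.QI

open Finset
open Pool.Agent.PC34 (prob)
open Pool.Agent.T9h34 (graphInput)
open Pool.Agent.T9h34.P (gr)
open Pool.Agent.HC34 (srcs IsLevel DepthLE)
open Pool.Agent.T9h34.Q
open Pool.Agent.T9h16.QL
open Pool.Agent.T9h75.QC
open Pool.Agent.T9h34.QE
open Pool.Agent.T9h22.QE (errE_nonneg)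

theorem stAllP (hM : StMonoE) (hJ : StDetector) (hR : StReads) (hT : StTVE) :
    Pool.Agent.T9h16.QI.StAllP := by
  intro n L a₀ B d m k f c q D s d' C ha hal hn hk hfan hs hD hf hc hd hm hq hB hRt
  classical
  have : Nonempty (Fin n) := ⟨⟨0, hn⟩⟩
  have : Nonempty (Fin L) := ⟨⟨0, by omega⟩⟩
  have : Nonempty {S : Finset (Fin n) // S.card = k} := by
    obtain ⟨S, -, hS⟩ := Finset.exists_subset_card_eq (s := (univ : Finset (Fin n))) (n := k)
      (by rw [card_univ, Fintype.card_fin]; exact hk)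
    exact ⟨⟨S, hS⟩⟩
  set T := C.numTests with hTdef
  -- the answers
  have hfin : (Set.range (fun x : Fin n × Fin n → Bool => C.reads x)).Finite :=
    Set.finite_range _
  let R := hfin.toFinset
  have hRcard : R.card ≤ 2 ^ T := by
    have := hR (Fin n × Fin n) C
    rwa [Set.ncard_eq_toFinset_card _ hfin] at this
  -- detectors
  have hdet : ∀ r : List (List Bool), ∃ E : T9h35.RW.Circuit (Fin n × Fin n), r ∈ R →
      (∀ g ∈ E.gates, g.IsMono f) ∧ E.size ≤ C.size + C.numTests + 1 ∧
      DepthLE E (D + C.numTests + 1) ∧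
      (∀ y, C.reads y = r → ∀ x, (∀ i, y i = true → x i = true) → E.eval x = false →
        C.reads x = r ∧ C.eval x = false) ∧
      ∀ x, C.reads x = r → E.eval x = true → C.eval x = true := by
    intro r
    by_cases hr : r ∈ R
    · have h1 : r ∈ Set.range (fun x : Fin n × Fin n → Bool => C.reads x) :=
        hfin.mem_toFinset.1 hr
      obtain ⟨y₀, hy₀⟩ := h1
      have hy : C.reads y₀ = r := hy₀
      obtain ⟨E, hE⟩ := hJ (Fin n × Fin n) f d' D hf C hfan hD y₀
      rw [hy] at hE
      exact ⟨E, fun _ => hE⟩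
    · exact ⟨C, fun h => absurd h hr⟩
  choose E hE using hdet
  let gi : Finset (Sym2 (Fin n)) → (Fin n × Fin n → Bool) := fun U => graphInput (gr U)
  have gi_mono : ∀ {U Z : Finset (Sym2 (Fin n))}, U ⊆ Z → ∀ p, gi U p = true → gi Z p = true :=
    fun h p hp => T9h34.P.graphInput_mono h p hp
  let Ω := {S : Finset (Fin n) // S.card = k} × EnvL (Fin n) L B d m
  have hmain := prob_main (X := Ω) R
    (fun x => C.eval (gi (low x.2.1 a₀ ∪ KT x.1.1)) = true ∧
      C.eval (gi (low x.2.1 a₀)) = false)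
    (fun _ => False)
    (fun r x => (E r).eval (gi (low x.2.1 a₀ ∪ KT x.1.1)) = true ∧
      (E r).eval (gi (stage (toEnv a₀ x.2) B)) = false)
    (fun r x => (E r).eval (gi (stage (toEnv a₀ x.2) B)) = true)
    (fun r x => (E r).eval (gi (low x.2.1 a₀)) = true) ?_ ?_
  · have e1 : prob (fun x : Ω => C.eval (gi (low x.2.1 a₀ ∪ KT x.1.1)) = true ∧
          C.eval (gi (low x.2.1 a₀)) = false) =
        prob (fun x : (Sym2 (Fin n) → Fin L) × {S : Finset (Fin n) // S.card = k} =>
          C.eval (graphInput (gr (low x.1 a₀ ∪ KT x.2.1))) = true ∧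
            C.eval (graphInput (gr (low x.1 a₀))) = false) := by
      let e : Ω ≃ ((Sym2 (Fin n) → Fin L) × {S : Finset (Fin n) // S.card = k}) ×
          ((Ix B d m → Packet (Fin n) B d m) × (Fin n → Ix B d m → Fin n)) :=
        { toFun := fun x => ((x.2.1, x.1), (x.2.2.1, x.2.2.2))
          invFun := fun y => (y.1.2, (y.1.1, (y.2.1, y.2.2)))
          left_inv := fun _ => rfl
          right_inv := fun _ => rfl }
      rw [← prob_fst (Y := (Ix B d m → Packet (Fin n) B d m) × (Fin n → Ix B d m → Fin n))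
        (fun x : (Sym2 (Fin n) → Fin L) × {S : Finset (Fin n) // S.card = k} =>
          C.eval (graphInput (gr (low x.1 a₀ ∪ KT x.2.1))) = true ∧
            C.eval (graphInput (gr (low x.1 a₀))) = false), ← prob_equiv e]
      rfl
    have e2 : ∀ Θ : Finset (Sym2 (Fin n)) → Prop, prob (fun x : Ω => Θ (low x.2.1 a₀)) =
        prob (fun lab : Sym2 (Fin n) → Fin L => Θ (low lab a₀)) := by
      intro Θ
      rw [prob_snd (X := {S : Finset (Fin n) // S.card = k})
        (fun ω : EnvL (Fin n) L B d m => Θ (low ω.1 a₀))]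
      exact prob_fst (Y := (Ix B d m → Packet (Fin n) B d m) × (Fin n → Ix B d m → Fin n))
        (fun lab : Sym2 (Fin n) → Fin L => Θ (low lab a₀))
    have e3 : ∀ Θ : Finset (Sym2 (Fin n)) → Prop,
        prob (fun x : Ω => Θ (stage (toEnv a₀ x.2) B)) ≤
        prob (fun lab : Sym2 (Fin n) → Fin L => Θ (low lab a₀)) + Fintype.card (Ix B d m) *
          dst L a₀ n (Fintype.card (Rt B d m)) := by
      intro Θ
      rw [prob_snd (X := {S : Finset (Fin n) // S.card = k})
        (fun ω : EnvL (Fin n) L B d m => Θ (stage (toEnv a₀ ω) B))]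
      have := hT (Fin n) L a₀ B d m ha hal (by rw [Fintype.card_fin]; exact hRt) Θ
      rw [Fintype.card_fin] at this
      exact this
    set x₀ : ℝ := (k : ℝ) / (m + 1) with hx₀
    set TV : ℝ := Fintype.card (Ix B d m) *
      dst L a₀ n (Fintype.card (Rt B d m)) with hTV
    have hdst0 : 0 ≤ dst L a₀ n (Fintype.card (Rt B d m)) := by unfold dst; positivity
    have hTV0 : 0 ≤ TV := by rw [hTV]; exact mul_nonneg (Nat.cast_nonneg _) hdst0
    have hx0 : 0 ≤ x₀ := by rw [hx₀]; positivity
    set dl : ℝ := dst L a₀ n (Fintype.card (Rt B d m)) with hdl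
    have hdl0 : 0 ≤ dl := hdst0
    have hmu0 : (0 : ℝ) ≤ (L : ℝ) / a₀ := by positivity
    have herr := errE_nonneg (s + 1) q c d (d * m + c) hmu0 hx0 hdl0
    have hterm : ∀ r ∈ R,
        prob (fun x : Ω => (E r).eval (gi (low x.2.1 a₀ ∪ KT x.1.1)) = true ∧
          (E r).eval (gi (stage (toEnv a₀ x.2) B)) = false) +
        (prob (fun x : Ω => (E r).eval (gi (stage (toEnv a₀ x.2) B)) = true) -
          prob (fun x : Ω => (E r).eval (gi (low x.2.1 a₀)) = true)) ≤ errE (s + 1) q c d (d * m + c) ((L : ℝ) / a₀) x₀ dl + TV := by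
      intro r hr
      obtain ⟨g1, g2, g3, -, -⟩ := hE r hr
      have m1 := hM n L a₀ B d m k f c q (D + T + 1) (s + 1) (E r) ha hal hn hk g1 (by omega) g3
        (by omega) hc hd hm hq (by rw [show D + T + 1 + 1 = D + T + 2 by ring]; exact hB) hRt
      have m2 := e3 (fun U => (E r).eval (gi U) = true)
      have m3 := e2 (fun U => (E r).eval (gi U) = true)
      have m1' : prob (fun x : Ω => (E r).eval (gi (low x.2.1 a₀ ∪ KT x.1.1)) = true ∧
          (E r).eval (gi (stage (toEnv a₀ x.2) B)) = false) ≤ errE (s + 1) q c d (d * m + c) ((L : ℝ) / a₀) x₀ dl := m1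
      have m2' : prob (fun x : Ω => (E r).eval (gi (stage (toEnv a₀ x.2) B)) = true) ≤
        prob (fun lab : Sym2 (Fin n) → Fin L => (E r).eval (gi (low lab a₀)) = true) + TV := m2
      have m3' : prob (fun x : Ω => (E r).eval (gi (low x.2.1 a₀)) = true) =
        prob (fun lab : Sym2 (Fin n) → Fin L => (E r).eval (gi (low lab a₀)) = true) := m3
      linarith
    have hsum := Finset.sum_le_sum hterm
    rw [Finset.sum_const, nsmul_eq_mul] at hsum
    have hR2 : (R.card : ℝ) * (errE (s + 1) q c d (d * m + c) ((L : ℝ) / a₀) x₀ dl + TV) ≤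
        2 ^ T * (errE (s + 1) q c d (d * m + c) ((L : ℝ) / a₀) x₀ dl + TV) := by
      refine mul_le_mul_of_nonneg_right ?_ (by linarith)
      exact_mod_cast hRcard
    rw [e1] at hmain
    have e4 : prob (fun _ : Ω => False) = 0 := by
      simp [prob_sum]
    rw [e4] at hmain
    linarith
  · rintro x ⟨hx, h0'⟩
    have h0 : ¬ C.eval (gi (low x.2.1 a₀)) = true := by rw [h0']; simp
    · right
      have hr : C.reads (gi (low x.2.1 a₀)) ∈ R := hfin.mem_toFinset.2 ⟨_, rfl⟩
      refine ⟨C.reads (gi (low x.2.1 a₀)), hr, ?_⟩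
      obtain ⟨-, -, -, g4, g5⟩ := hE _ hr
      have hE1 : (E (C.reads (gi (low x.2.1 a₀)))).eval (gi (low x.2.1 a₀ ∪ KT x.1.1)) = true := by
        by_contra hcon
        have h1 := (g4 (gi (low x.2.1 a₀)) rfl (gi (low x.2.1 a₀ ∪ KT x.1.1)) (gi_mono subset_union_left)
          (Bool.eq_false_iff.2 hcon)).2
        rw [hx] at h1
        exact absurd h1 (by simp)
      by_cases hEB : (E (C.reads (gi (low x.2.1 a₀)))).eval (gi (stage (toEnv a₀ x.2) B)) = true
      · exact .inr ⟨hEB, fun hE0 => h0 (g5 _ rfl hE0)⟩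
      · exact .inl ⟨hE1, Bool.eq_false_iff.2 hEB⟩
  · intro r hr x hx
    exact eval_mono (E r) (hE r hr).1 (gi_mono (by unfold stage; exact subset_union_left)) hx

end Pool.Agent.T9h22.QI
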